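import Pool.Agent.X158.HZ.Stm

set_option autoImplicit false

namespace Pool.Agent.X154.HZ

open Finset Pool.Agent.X158.HZ

variable {n m : ℕ}

open Classical in
/-- colour vectors of the lazy walks of length `t` from `u` to `v` -/
noncomputable def RR (E : Fin m → Fin n → Fin n → Prop) :
    ℕ → Fin n → Fin n → Multiset (Fin m → ℕ)
  | 0, u, v => if u = v then {0} else 0
  | t + 1, u, v => RR E t u v +
      ∑ k, ∑ x, if E k u x then (RR E t x v).map (fun c => c + Pi.single k 1) else 0

theorem sum_single (c : Fin m → ℕ) (k : Fin m) :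
    ∑ l, (c + Pi.single k 1 : Fin m → ℕ) l = ∑ l, c l + 1 := by
  simp [Finset.sum_add_distrib]

theorem RR_mem (E : Fin m → Fin n → Fin n → Prop) (t : ℕ) : ∀ (u v : Fin n), ∀ c ∈ RR E t u v,
    (∃ V, Wk E u v c V) ∧ ∑ k, c k ≤ t := by
  classical
  induction t with
  | zero =>
    intro u v c hc
    unfold RR at hc
    split_ifs at hc with h
    · rw [Multiset.mem_singleton] at hc
      subst hc; subst h
      exact ⟨⟨_, Wk.nil u⟩, by simp⟩
    · exact absurd hc (Multiset.notMem_zero _)
  | succ t ih =>
    intro u v c hc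
    unfold RR at hc
    rw [Multiset.mem_add] at hc
    rcases hc with hc | hc
    · obtain ⟨h1, h2⟩ := ih u v c hc
      exact ⟨h1, by omega⟩
    · rw [Multiset.mem_sum] at hc
      obtain ⟨k, _, hc⟩ := hc
      rw [Multiset.mem_sum] at hc
      obtain ⟨x, _, hc⟩ := hc
      split_ifs at hc with h
      · rw [Multiset.mem_map] at hc
        obtain ⟨c', hc', rfl⟩ := hc
        obtain ⟨⟨V, h1⟩, h2⟩ := ih x v c' hc'
        refine ⟨⟨_, Wk.cons h h1⟩, ?_⟩
        rw [sum_single]
        omega
      · exact absurd hc (Multiset.notMem_zero _)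

theorem RR_mono (E : Fin m → Fin n → Fin n → Prop) (t : ℕ) (u v : Fin n) {c : Fin m → ℕ}
    (h : c ∈ RR E t u v) : c ∈ RR E (t + 1) u v := by
  unfold RR
  rw [Multiset.mem_add]
  exact Or.inl h

theorem RR_zero (E : Fin m → Fin n → Fin n → Prop) (t : ℕ) (u : Fin n) : (0 : Fin m → ℕ) ∈ RR E t u u := by
  induction t with
  | zero => unfold RR; simp
  | succ t ih => exact RR_mono E t u u ih

theorem RR_complete (E : Fin m → Fin n → Fin n → Prop) {u v : Fin n} {c : Fin m → ℕ}
    {V : Finset (Fin n)} (h : Wk E u v c V) : ∀ t, ∑ k, c k ≤ t → c ∈ RR E t u v := by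
  classical
  induction h with
  | nil i => intro t _; exact RR_zero E t i
  | @cons i j l k c V hE hW ih =>
    intro t ht
    rw [sum_single] at ht
    obtain ⟨t', rfl⟩ : ∃ t', t = t' + 1 := ⟨t - 1, by omega⟩
    unfold RR
    rw [Multiset.mem_add]
    right
    rw [Multiset.mem_sum]
    refine ⟨k, Finset.mem_univ _, ?_⟩
    rw [Multiset.mem_sum]
    refine ⟨j, Finset.mem_univ _, ?_⟩
    rw [if_pos hE]
    exact Multiset.mem_map_of_mem _ (ih t' (by omega))

/-- sum of the `k`-th entries -/
noncomputable def ph (k : Fin m) : Multiset (Fin m → ℕ) →+ ℕ where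
  toFun s := (s.map (fun c => c k)).sum
  map_zero' := by simp
  map_add' s t := by simp

/-- cardinality -/
noncomputable def cd : Multiset (Fin m → ℕ) →+ ℕ where
  toFun s := Multiset.card s
  map_zero' := by simp
  map_add' s t := by simp

theorem ph_map (k l : Fin m) (s : Multiset (Fin m → ℕ)) :
    ph k (s.map (fun c => c + Pi.single l 1)) = ph k s + (if l = k then 1 else 0) * cd s := by
  show ((s.map (fun c => c + Pi.single l 1)).map (fun c => c k)).sum
    = (s.map (fun c => c k)).sum + (if l = k then 1 else 0) * Multiset.card s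
  induction s using Multiset.induction_on with
  | empty => simp
  | cons a s ih =>
    simp only [Multiset.map_cons, Multiset.sum_cons, Multiset.card_cons, Pi.add_apply]
    rw [ih]
    by_cases h : l = k
    · subst h; simp; ring
    · rw [if_neg h, Pi.single_eq_of_ne (Ne.symm h)]; ring

theorem cd_map (l : Fin m) (s : Multiset (Fin m → ℕ)) :
    cd (s.map (fun c => c + Pi.single l 1)) = cd s := by
  show Multiset.card (s.map (fun c => c + Pi.single l 1)) = Multiset.card s
  simp

theorem lazy_mul (E : Fin m → Fin n → Fin n → Prop) (M : Matrix (Fin n) (Fin n) ℕ) :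
    lazy E * M = M + ∑ k, col E k * M := by
  unfold lazy
  rw [Matrix.add_mul, Matrix.one_mul, Finset.sum_mul]

theorem card_RR (E : Fin m → Fin n → Fin n → Prop) (t : ℕ) :
    ∀ u v, cd (RR E t u v) = (lazy E ^ t) u v := by
  classical
  induction t with
  | zero =>
    intro u v
    unfold RR
    rw [pow_zero, Matrix.one_apply]
    split_ifs
    · show Multiset.card ({0} : Multiset (Fin m → ℕ)) = 1; simp
    · simp
  | succ t ih =>
    intro u v
    unfold RR
    rw [map_add, ih, map_sum, pow_succ', lazy_mul, Matrix.add_apply, Matrix.sum_apply]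
    congr 1
    refine Finset.sum_congr rfl fun k _ => ?_
    rw [map_sum, Matrix.mul_apply]
    refine Finset.sum_congr rfl fun x _ => ?_
    unfold col
    split_ifs with h
    · rw [cd_map, ih, one_mul]
    · simp

theorem ph_RR (E : Fin m → Fin n → Fin n → Prop) (k : Fin m) (t : ℕ) :
    ∀ u v, ph k (RR E t u v) =
      (∑ s ∈ range t, lazy E ^ s * col E k * lazy E ^ (t - 1 - s)) u v := by
  classical
  induction t with
  | zero =>
    intro u v
    unfold RR
    simp only [Finset.range_zero, Finset.sum_empty, Matrix.zero_apply]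
    split_ifs
    · show (Multiset.map (fun c => c k) ({0} : Multiset (Fin m → ℕ))).sum = 0; simp
    · simp
  | succ t ih =>
    intro u v
    have hrec : ∑ s ∈ range (t + 1), lazy E ^ s * col E k * lazy E ^ (t + 1 - 1 - s)
        = lazy E * (∑ s ∈ range t, lazy E ^ s * col E k * lazy E ^ (t - 1 - s))
          + col E k * lazy E ^ t := by
      rw [Finset.sum_range_succ', Finset.mul_sum]
      congr 1
      · refine Finset.sum_congr rfl fun s hs => ?_
        have hs' := Finset.mem_range.1 hs
        have e : t + 1 - 1 - (s + 1) = t - 1 - s := by omega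
        rw [e, pow_succ', Matrix.mul_assoc, Matrix.mul_assoc, Matrix.mul_assoc]
      · simp
    rw [hrec]
    set W := ∑ s ∈ range t, lazy E ^ s * col E k * lazy E ^ (t - 1 - s) with hW
    unfold RR
    rw [map_add, ih, map_sum, lazy_mul, Matrix.add_apply, Matrix.add_apply, Matrix.sum_apply,
      add_assoc]
    congr 1
    have hk : (col E k * lazy E ^ t) u v
        = ∑ l, ∑ x, (if l = k then 1 else 0) * (col E l u x * (lazy E ^ t) x v) := by
      rw [Finset.sum_eq_single k]
      · rw [Matrix.mul_apply]
        simp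
      · intro l _ hl
        simp [hl]
      · intro h; exact absurd (Finset.mem_univ k) h
    rw [hk, ← Finset.sum_add_distrib]
    refine Finset.sum_congr rfl fun l _ => ?_
    rw [map_sum, Matrix.mul_apply, ← Finset.sum_add_distrib]
    refine Finset.sum_congr rfl fun x _ => ?_
    by_cases h : E l u x
    · have hc : col E l u x = 1 := by unfold col; rw [if_pos h]
      rw [if_pos h, ph_map, ih, card_RR, hc]
      ring
    · have hc : col E l u x = 0 := by unfold col; rw [if_neg h]
      rw [if_neg h, hc, map_zero]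
      ring

theorem t_TR : S_TR := by
  intro n m E
  refine ⟨∑ v, RR E n v v, ?_, ?_, ?_⟩
  · intro c hc
    rw [Multiset.mem_sum] at hc
    obtain ⟨v, _, hc⟩ := hc
    obtain ⟨⟨V, h1⟩, h2⟩ := RR_mem E n v v c hc
    exact ⟨⟨v, V, h1⟩, h2⟩
  · intro v c V h hc
    rw [Multiset.mem_sum]
    exact ⟨v, Finset.mem_univ _, RR_complete E h n hc⟩
  · intro k
    show _ = ph k (∑ v, RR E n v v)
    rw [map_sum]
    have : ∑ v, ph k (RR E n v v) = Matrix.trace
        (∑ s ∈ range n, lazy E ^ s * col E k * lazy E ^ (n - 1 - s)) := by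
      unfold Matrix.trace
      refine Finset.sum_congr rfl fun v _ => ?_
      rw [ph_RR]; rfl
    rw [this, Matrix.trace_sum]
    have hs : ∀ s ∈ range n, Matrix.trace (lazy E ^ s * col E k * lazy E ^ (n - 1 - s))
        = Matrix.trace (col E k * lazy E ^ (n - 1)) := by
      intro s hs
      have hs' := Finset.mem_range.1 hs
      rw [Matrix.mul_assoc, Matrix.trace_mul_comm, Matrix.mul_assoc, ← pow_add]
      congr 3
      omega
    rw [Finset.sum_congr rfl hs]
    simp

end Pool.Agent.X154.HZ
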